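import Pool.Agent.Helper62.AP.Lsw

set_option autoImplicit false

/-!
# No finite automaton predicts which integers lie in wandering domains of `f₀`

Let `S` be a set of integers which is completely invariant under the entire function `f₀` of
Letherman, Schleicher and Wood: the integers in wandering domains, the integers in the basin of an
integer cycle, the integers whose orbits merge with the orbit of a given integer. Let `δ` be the
density of `S` among the integers of sign `s`. A machine with `K` states reads the digits of `n` in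
the base `b`, beginning with the leading digit; `a n` is its state at the end. The sets
`{n | a n ∈ Q}` are the automatic sets, for instance the residue classes, the numbers with an even
sum of binary digits, the union of the intervals `[4^k, 2 * 4^k)`, and all sets which are definable
by addition and the function `V_b` (the largest power of `b` which divides `n`).

1. The event `s n ∈ S` is asymptotically independent of the final state of the machine: among the
   `n ≤ N` with `a n ∈ Q` the proportion `δ` satisfies `s n ∈ S`, with an error of at most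
   `N / (log N) ^ c`, where `c > 0` and `N ≥ N₀` depend only on `b` and `K`, and not on the machine
   and on `S`. This also holds for machines for which the density of `{n | a n ∈ Q}` does not exist.
2. The automatic sets are not closer to `{n | s n ∈ S}` than the empty set or the set of all numbers:
   the machine errs for at least `min δ (1 - δ) N - N / (log N) ^ c` of the `n ≤ N`.
3. If the machine announces for each `n` a completely invariant set (for instance one of the integer
   cycles, or `wandering`), it is right for at most `μ N + N / (log N) ^ c` of the `n ≤ N`, where `μ`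
   is the greatest density of the announced sets.
4. Every automatic set of positive upper density decides: if `S` contains an integer of sign `s`,
   then it contains `s n` for infinitely many `n` in the automatic set. So if no `s n`, `n` in the
   automatic set, lies in a wandering domain (or: is attracted to a given cycle), then no integer of
   sign `s` lies in a wandering domain (is attracted to the cycle).
-/

open Filter Topology Finset

namespace Pool.Agent.Results.MP_071ec9_an.AutomaticPrediction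

open Pool.Agent.H384R2.Fatou Pool.Agent.Helper62.AP

/-- The entire function of Letherman, Schleicher and Wood; `f₀ n = T n` for every integer `n`, where
`T` is the `3x+1` function. -/
noncomputable def f₀ (z : ℂ) : ℂ :=
  z / 2 + (z + 1 / 2) * ((1 - Complex.cos (Real.pi * z)) / 2) +
    1 / Real.pi * (1 / 2 - Complex.cos (Real.pi * z)) * Complex.sin (Real.pi * z)

/-- The set `S` of integers is completely invariant under `f₀`: an integer `n` is in `S` if and only if
`f₀ n` is. -/
def Invariant (S : Set ℤ) : Prop := ∀ n m : ℤ, f₀ (n : ℂ) = m → (n ∈ S ↔ m ∈ S)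

/-- The integers whose Fatou component is a wandering domain of `f₀`. -/
def WanderingIntegers : Set ℤ := {n | IsWanderingDomain f₀ (FatouComponent f₀ n)}

/-- The integers `n` in the Fatou set whose component is not a wandering domain and is attracted to
the cycle of the integer `a`, of period (dividing) `p`: all points `z` of the component satisfy
`f₀^(k+pm)(z) → a` as `m → ∞`, for some `k`. -/
def BasinIntegers (a : ℤ) (p : ℕ) : Set ℤ :=
  {n | (n : ℂ) ∈ FatouSet f₀ ∧ ¬ IsWanderingDomain f₀ (FatouComponent f₀ n) ∧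
    ∃ k : ℕ, ∀ z ∈ FatouComponent f₀ n,
      Tendsto (fun m : ℕ => f₀^[k + p * m] z) atTop (𝓝 (a : ℂ))}

/-- Among the integers of sign `s` the set `S` has natural density `d`. -/
def HasDensity (s : ℤ) (S : Set ℤ) (d : ℝ) : Prop :=
  Tendsto (fun N : ℕ => ({n : ℤ | 0 < s * n ∧ s * n ≤ N ∧ n ∈ S}.ncard : ℝ) / N) atTop (𝓝 d)

/-- `a n` is the state of a machine with `K` states which has read the digits of `n` in base `b`,
beginning with the leading digit: the state after `b n + r` is determined by the state after `n` and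
the digit `r`. (The states after the numbers of one digit are arbitrary.) -/
def Automatic (b : ℕ) {K : ℕ} (a : ℕ → Fin K) : Prop :=
  ∃ δ : Fin K → ℕ → Fin K, ∀ n, 0 < n → ∀ r < b, a (b * n + r) = δ (a n) r

/-- The number of the `n`, `1 ≤ n ≤ N`, with the property `P`. -/
noncomputable def number (P : ℕ → Prop) (N : ℕ) : ℝ := ({n : ℕ | 1 ≤ n ∧ n ≤ N ∧ P n}.ncard : ℝ)

/-! ### proofs -/

open Classical in
theorem number_eq (P : ℕ → Prop) (N : ℕ) :
    number P N = ∑ n ∈ range N, if P (n + 1) then (1 : ℝ) else 0 := by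
  unfold number
  rw [Finset.sum_boole]
  congr 1
  rw [← Set.ncard_coe_finset]
  have himg : {n : ℕ | 1 ≤ n ∧ n ≤ N ∧ P n} =
      (fun n : ℕ => n + 1) '' (((range N).filter fun n : ℕ => P (n + 1) : Finset ℕ) : Set ℕ) := by
    ext n
    simp only [Set.mem_ofPred_eq, Set.mem_image, coe_filter, mem_range]
    constructor
    · rintro ⟨h1, h2, h3⟩
      refine ⟨n - 1, ⟨by omega, ?_⟩, by omega⟩
      rwa [Nat.sub_add_cancel h1]
    · rintro ⟨m, ⟨h1, h2⟩, rfl⟩
      exact ⟨by omega, by omega, h2⟩
  rw [himg, Set.ncard_image_of_injective _ (fun a b h => by simpa using h)]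

theorem inv_T {S : Set ℤ} (h : Invariant S) : ∀ x : ℤ, x ∈ S ↔ Pool.Agent.H723R2.LSW.T x ∈ S :=
  Pool.Agent.Q163.WD.cinv_iff.1 h

/-- **Finite automata and the integers in wandering domains.** Let `s = 1` or `s = -1`. -/
theorem result (s : ℤ) (hs : s = 1 ∨ s = -1) :
    -- the sets in question are completely invariant
    (Invariant WanderingIntegers ∧
      ∀ (a : ℤ) (p : ℕ), 0 < p → f₀^[p] (a : ℂ) = a → Invariant (BasinIntegers a p)) ∧
    (∃ w : ℝ, 0 ≤ w ∧ w < 1 ∧ HasDensity s WanderingIntegers w ∧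
      (w = 0 ↔ ∀ n : ℤ, 0 < s * n → n ∉ WanderingIntegers)) ∧
    (∀ b K : ℕ, 2 ≤ b → ∃ c : ℝ, 0 < c ∧ ∃ N₀ : ℕ,
      (∀ S : Set ℤ, Invariant S → ∃ δ : ℝ, 0 ≤ δ ∧ δ ≤ 1 ∧ HasDensity s S δ ∧
        (δ = 0 ↔ ∀ n : ℤ, 0 < s * n → n ∉ S) ∧ (δ = 1 ↔ ∀ n : ℤ, 0 < s * n → n ∈ S) ∧
        ∀ a : ℕ → Fin K, Automatic b a → ∀ (Q : Set (Fin K)) (N : ℕ), N₀ ≤ N →
          -- 1. independence
          |number (fun n => a n ∈ Q ∧ s * (n : ℤ) ∈ S) N - δ * number (fun n => a n ∈ Q) N| ≤
            N / Real.log N ^ c ∧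
          -- 2. automatic sets are not close to `S`
          min δ (1 - δ) * N - N / Real.log N ^ c ≤
            number (fun n => ¬ (a n ∈ Q ↔ s * (n : ℤ) ∈ S)) N) ∧
      -- 3. prediction
      (∀ a : ℕ → Fin K, Automatic b a → ∀ G : Fin K → Set ℤ, (∀ q, Invariant (G q)) → ∀ μ : ℝ,
        (∀ (q : Fin K) (d : ℝ), HasDensity s (G q) d → d ≤ μ) → ∀ N : ℕ, N₀ ≤ N →
        number (fun n => s * (n : ℤ) ∈ G (a n)) N ≤ μ * N + N / Real.log N ^ c)) ∧
    -- 4. automatic sets of positive upper density decide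
    (∀ (b K : ℕ) (a : ℕ → Fin K) (Q : Set (Fin K)) (η : ℝ), 2 ≤ b → Automatic b a → 0 < η →
      (∃ᶠ N : ℕ in atTop, η * N ≤ number (fun n => a n ∈ Q) N) →
      ∀ S : Set ℤ, Invariant S → (∃ y ∈ S, 0 < s * y) →
        ∀ M : ℕ, ∃ n, M ≤ n ∧ a n ∈ Q ∧ s * (n : ℤ) ∈ S) := by
  classical
  obtain ⟨C, hC, hmean⟩ := means
  obtain ⟨C', hC', hjump⟩ := jumps
  have hlog : Tendsto (fun N : ℕ => Real.log N) atTop atTop :=
    Real.tendsto_log_atTop.comp tendsto_natCast_atTop_atTop
  -- density
  have hdens : ∀ (S : Set ℤ) (δ : ℝ), (∀ N : ℕ, 2 ≤ N →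
      |∑ n ∈ range N, ind s S (n + 1) - δ * N| ≤ C * N / (Real.log N) ^ (1 / 30 : ℝ)) →
      HasDensity s S δ := by
    intro S δ h
    unfold HasDensity
    rw [tendsto_iff_norm_sub_tendsto_zero]
    have h0 : Tendsto (fun N : ℕ => C * (Real.log N ^ (1 / 30 : ℝ))⁻¹) atTop (𝓝 0) := by
      have := ((tendsto_rpow_atTop (by norm_num : (0 : ℝ) < 1 / 30)).comp hlog).inv_tendsto_atTop
      simpa using this.const_mul C
    refine squeeze_zero' (Eventually.of_forall fun N => norm_nonneg _) ?_ h0
    filter_upwards [eventually_ge_atTop 2] with N hN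
    have hN0 : (0 : ℝ) < N := by
      have : (2 : ℝ) ≤ N := by exact_mod_cast hN
      linarith
    rw [ci_sum hs, Real.norm_eq_abs]
    have e : (∑ n ∈ range N, ind s S (n + 1)) / (N : ℝ) - δ =
        (∑ n ∈ range N, ind s S (n + 1) - δ * N) / N := by field_simp
    rw [e, abs_div, abs_of_pos hN0, div_le_iff₀ hN0]
    refine (h N hN).trans (le_of_eq ?_)
    rw [div_eq_mul_inv]; ring
  have hW : Invariant WanderingIntegers := Pool.Agent.Q163.WD.WI_cinv
  have hB : ∀ (a : ℤ) (p : ℕ), 0 < p → f₀^[p] (a : ℂ) = a → Invariant (BasinIntegers a p) :=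
    fun a p hp ha => Pool.Agent.Q163.WD.BI_cinv hp ha
  -- the main part
  have hmain : ∀ b K : ℕ, 2 ≤ b → ∃ c : ℝ, 0 < c ∧ ∃ N₀ : ℕ,
      (∀ S : Set ℤ, Invariant S → ∃ δ : ℝ, 0 ≤ δ ∧ δ ≤ 1 ∧ HasDensity s S δ ∧
        (δ = 0 ↔ ∀ n : ℤ, 0 < s * n → n ∉ S) ∧ (δ = 1 ↔ ∀ n : ℤ, 0 < s * n → n ∈ S) ∧
        ∀ a : ℕ → Fin K, Automatic b a → ∀ (Q : Set (Fin K)) (N : ℕ), N₀ ≤ N →
          |number (fun n => a n ∈ Q ∧ s * (n : ℤ) ∈ S) N - δ * number (fun n => a n ∈ Q) N| ≤
            N / Real.log N ^ c ∧
          min δ (1 - δ) * N - N / Real.log N ^ c ≤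
            number (fun n => ¬ (a n ∈ Q ↔ s * (n : ℤ) ∈ S)) N) ∧
      (∀ a : ℕ → Fin K, Automatic b a → ∀ G : Fin K → Set ℤ, (∀ q, Invariant (G q)) → ∀ μ : ℝ,
        (∀ (q : Fin K) (d : ℝ), HasDensity s (G q) d → d ≤ μ) → ∀ N : ℕ, N₀ ≤ N →
        number (fun n => s * (n : ℤ) ∈ G (a n)) N ≤ μ * N + N / Real.log N ^ c) := by
    intro b K hb
    set D : ℝ := C + 2 + C' with hD
    set 𝓤 : Set (ℕ → ℝ) := {u | ∃ (S : Set ℤ) (δ : ℝ), (∀ n, u n = ind s S n - δ) ∧ 0 ≤ δ ∧ δ ≤ 1 ∧
      (∀ N : ℕ, 2 ≤ N → |∑ n ∈ range N, (ind s S n - δ)| ≤ (C + 2) * N / Real.log N ^ (1 / 30 : ℝ)) ∧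
      ∀ x : ℤ, x ∈ S ↔ Pool.Agent.H723R2.LSW.T x ∈ S} with h𝓤
    obtain ⟨c, hc, hcore⟩ := core K b hb 𝓤
      (by
        rintro u ⟨S, δ, hu, d0, d1, -, -⟩ n
        rw [hu, abs_le]
        constructor <;> linarith [ind_nonneg s S n, ind_le_one s S n])
      (1 / 30) D (by norm_num) (by norm_num) (by positivity) 16
      (by
        rintro u ⟨S, δ, hu, d0, d1, hm, -⟩ N hN
        rw [Finset.sum_congr rfl fun n _ => hu n]
        refine (hm N (by omega)).trans ?_
        have : 0 ≤ Real.log N ^ (1 / 30 : ℝ) := Real.rpow_nonneg (Real.log_natCast_nonneg N) _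
        gcongr
        rw [hD]; linarith)
      (by
        rintro u ⟨S, δ, hu, d0, d1, -, hT⟩ N hN
        have e : u = fun n => ind s S n - δ := funext hu
        rw [e]
        refine (hjump s hs S hT δ N hN).trans ?_
        have : 0 ≤ Real.log N ^ (1 / 30 : ℝ) := Real.rpow_nonneg (Real.log_natCast_nonneg N) _
        gcongr
        rw [hD]; linarith)
    have ev1 : ∀ᶠ N : ℕ in atTop, (3 : ℝ) * (K + 2) ≤ Real.log N ^ (c / 2) :=
      ((tendsto_rpow_atTop (by positivity : 0 < c / 2)).comp hlog).eventually_ge_atTop _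
    have ev2 : ∀ᶠ N : ℕ in atTop, Real.log N ^ c ≤ N := by
      have := (isLittleO_log_rpow_rpow_atTop c (by norm_num : (0 : ℝ) < 1)).bound
        (by norm_num : (0 : ℝ) < 1)
      have h2 := tendsto_natCast_atTop_atTop (R := ℝ) |>.eventually this
      filter_upwards [h2, hlog.eventually_ge_atTop 1] with N hN hN1
      have p1 : 0 ≤ Real.log (N : ℝ) ^ c := Real.rpow_nonneg (by linarith) _
      have p2 : 0 ≤ (N : ℝ) ^ (1 : ℝ) := by positivity
      rw [Real.norm_of_nonneg p1, Real.norm_of_nonneg p2, one_mul, Real.rpow_one] at hN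
      exact hN
    obtain ⟨N₀, hN₀⟩ := eventually_atTop.1
      ((((hcore.and ev1).and ev2).and (hlog.eventually_ge_atTop 1)).and (eventually_ge_atTop 16))
    -- the error
    have herr : ∀ N : ℕ, N₀ ≤ N → (K + 2) * ((N : ℝ) / Real.log N ^ c + 2) ≤
        N / Real.log N ^ (c / 2) ∧ 0 ≤ (N : ℝ) / Real.log N ^ c + 2 := by
      intro N hN
      obtain ⟨⟨⟨⟨-, h1⟩, h2⟩, h3⟩, h4⟩ := hN₀ N hN
      set L : ℝ := Real.log N with hL
      have hL0 : 0 < L := by linarith
      have hp : 0 < L ^ c := by positivity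
      have hp2 : 0 < L ^ (c / 2) := by positivity
      have hN0 : (0 : ℝ) < N := by
        have : (16 : ℝ) ≤ N := by exact_mod_cast h4
        linarith
      have h5 : (1 : ℝ) ≤ N / L ^ c := by rwa [le_div_iff₀ hp, one_mul]
      refine ⟨?_, by linarith⟩
      have h6 : L ^ c = L ^ (c / 2) * L ^ (c / 2) := by
        rw [← Real.rpow_add hL0]; congr 1; ring
      calc ((K : ℝ) + 2) * (N / L ^ c + 2) ≤ (K + 2) * (3 * (N / L ^ c)) := by
            gcongr; linarith
        _ = 3 * (K + 2) * (N / L ^ c) := by ring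
        _ ≤ L ^ (c / 2) * (N / L ^ c) := by gcongr
        _ = N / L ^ (c / 2) := by rw [h6]; field_simp
    -- independence with the sharper error
    have hind : ∀ S : Set ℤ, Invariant S → ∃ δ : ℝ, 0 ≤ δ ∧ δ ≤ 1 ∧ HasDensity s S δ ∧
        (δ = 0 ↔ ∀ n : ℤ, 0 < s * n → n ∉ S) ∧ (δ = 1 ↔ ∀ n : ℤ, 0 < s * n → n ∈ S) ∧
        ∀ a : ℕ → Fin K, Automatic b a → ∀ (Q : Set (Fin K)) (N : ℕ), N₀ ≤ N →
          |number (fun n => a n ∈ Q ∧ s * (n : ℤ) ∈ S) N - δ * number (fun n => a n ∈ Q) N| ≤
            N / Real.log N ^ c + 2 := by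
      intro S hS
      obtain ⟨δ, d0, d1, z0, z1, hm1, hm2⟩ := hmean s hs S (inv_T hS)
      refine ⟨δ, d0, d1, hdens S δ hm1, z0, z1, fun a ha Q N hN => ?_⟩
      obtain ⟨⟨⟨⟨h1, -⟩, -⟩, -⟩, -⟩ := hN₀ N hN
      set g : Fin K → ℝ := fun q => if q ∈ Q then 1 else 0 with hg
      have hg1 : ∀ q, |g q| ≤ 1 := by
        intro q; rw [hg]; dsimp only; split_ifs <;> norm_num
      have h2 := h1 (fun n => ind s S n - δ) ⟨S, δ, fun _ => rfl, d0, d1, hm2, inv_T hS⟩ a ha g hg1
      set F : ℕ → ℝ := fun n => (ind s S n - δ) * g (a n) with hF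
      have hF1 : ∀ n, |F n| ≤ 1 := by
        intro n
        rw [hF]; dsimp only
        rw [abs_mul]
        have : |ind s S n - δ| ≤ 1 := by
          rw [abs_le]
          constructor <;> linarith [ind_nonneg s S n, ind_le_one s S n]
        calc _ ≤ (1 : ℝ) * 1 := mul_le_mul this (hg1 _) (abs_nonneg _) zero_le_one
          _ = 1 := one_mul 1
      have e1 : number (fun n => a n ∈ Q ∧ s * (n : ℤ) ∈ S) N - δ * number (fun n => a n ∈ Q) N =
          ∑ n ∈ range N, F (n + 1) := by
        rw [number_eq, number_eq, Finset.mul_sum, ← Finset.sum_sub_distrib]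
        refine Finset.sum_congr rfl fun n _ => ?_
        rw [hF]
        dsimp only
        unfold ind
        rw [hg]
        by_cases q1 : a (n + 1) ∈ Q <;> simp [q1]
      have e2 : ∑ n ∈ range N, F n + F N = ∑ n ∈ range N, F (n + 1) + F 0 := by
        rw [← Finset.sum_range_succ, ← Finset.sum_range_succ']
      have b0 := abs_le.1 (hF1 0)
      have bN := abs_le.1 (hF1 N)
      have b2 := abs_le.1 h2
      rw [e1, abs_le]
      constructor <;> linarith
    refine ⟨c / 2, by positivity, N₀, ?_, ?_⟩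
    · intro S hS
      obtain ⟨δ, d0, d1, hd, z0, z1, h⟩ := hind S hS
      refine ⟨δ, d0, d1, hd, z0, z1, fun a ha Q N hN => ?_⟩
      obtain ⟨he, he0⟩ := herr N hN
      have hK : (0 : ℝ) ≤ K := by positivity
      have h1 := h a ha Q N hN
      refine ⟨?_, ?_⟩
      · refine h1.trans ?_
        nlinarith
      · have h2 := h a ha Qᶜ N hN
        have hsum : number (fun n => a n ∈ Q) N + number (fun n => a n ∈ Qᶜ) N = N := by
          rw [number_eq, number_eq, ← Finset.sum_add_distrib]
          refine (Finset.sum_congr rfl (g := fun _ => (1 : ℝ)) fun n _ => ?_).trans (by simp)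
          by_cases q1 : a (n + 1) ∈ Q <;> simp [q1]
        have hdis : number (fun n => ¬ (a n ∈ Q ↔ s * (n : ℤ) ∈ S)) N =
            (number (fun n => a n ∈ Q) N - number (fun n => a n ∈ Q ∧ s * (n : ℤ) ∈ S) N) +
            number (fun n => a n ∈ Qᶜ ∧ s * (n : ℤ) ∈ S) N := by
          rw [number_eq, number_eq, number_eq, number_eq, ← Finset.sum_sub_distrib,
            ← Finset.sum_add_distrib]
          refine Finset.sum_congr rfl fun n _ => ?_
          by_cases q1 : a (n + 1) ∈ Q <;> by_cases q2 : s * ((n + 1 : ℕ) : ℤ) ∈ S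
          · rw [if_neg (by tauto), if_pos q1, if_pos ⟨q1, q2⟩, if_neg (fun h => h.1 q1)]
            norm_num
          · rw [if_pos (by tauto), if_pos q1, if_neg (by tauto), if_neg (fun h => h.1 q1)]
            norm_num
          · rw [if_pos (by tauto), if_neg q1, if_neg (by tauto), if_pos ⟨q1, q2⟩]
            norm_num
          · rw [if_neg (by tauto), if_neg q1, if_neg (by tauto), if_neg (by tauto)]
            norm_num
        have n1 : 0 ≤ number (fun n => a n ∈ Q) N := by unfold number; positivity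
        have n2 : 0 ≤ number (fun n => a n ∈ Qᶜ) N := by unfold number; positivity
        have m1 : min δ (1 - δ) * number (fun n => a n ∈ Q) N ≤
            (1 - δ) * number (fun n => a n ∈ Q) N := mul_le_mul_of_nonneg_right (min_le_right _ _) n1
        have m2 : min δ (1 - δ) * number (fun n => a n ∈ Qᶜ) N ≤
            δ * number (fun n => a n ∈ Qᶜ) N := mul_le_mul_of_nonneg_right (min_le_left _ _) n2
        have a1 := abs_le.1 h1
        have a2 := abs_le.1 h2
        rw [hdis]
        have e3 : min δ (1 - δ) * (N : ℝ) = min δ (1 - δ) * number (fun n => a n ∈ Q) N +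
            min δ (1 - δ) * number (fun n => a n ∈ Qᶜ) N := by rw [← mul_add, hsum]
        rw [e3]
        nlinarith
    · intro a ha G hG μ hμ N hN
      obtain ⟨he, he0⟩ := herr N hN
      have hq : ∀ q : Fin K, number (fun n => a n ∈ ({q} : Set (Fin K)) ∧ s * (n : ℤ) ∈ G q) N ≤
          μ * number (fun n => a n ∈ ({q} : Set (Fin K))) N + ((N : ℝ) / Real.log N ^ c + 2) := by
        intro q
        obtain ⟨δ, d0, d1, hd, -, -, h⟩ := hind (G q) (hG q)
        have h1 := abs_le.1 (h a ha {q} N hN)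
        have h2 := hμ q δ hd
        have n1 : 0 ≤ number (fun n => a n ∈ ({q} : Set (Fin K))) N := by unfold number; positivity
        nlinarith
      have e1 : number (fun n => s * (n : ℤ) ∈ G (a n)) N =
          ∑ q : Fin K, number (fun n => a n ∈ ({q} : Set (Fin K)) ∧ s * (n : ℤ) ∈ G q) N := by
        simp only [number_eq]
        rw [Finset.sum_comm]
        refine Finset.sum_congr rfl fun n _ => ?_
        rw [Finset.sum_eq_single (a (n + 1))]
        · simp
        · intro q _ hne
          rw [if_neg]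
          rintro ⟨h1, -⟩
          exact hne h1.symm
        · intro h; exact absurd (mem_univ _) h
      have e2 : ∑ q : Fin K, number (fun n => a n ∈ ({q} : Set (Fin K))) N = N := by
        simp only [number_eq]
        rw [Finset.sum_comm]
        refine (Finset.sum_congr rfl (g := fun _ => (1 : ℝ)) fun n _ => ?_).trans (by simp)
        rw [Finset.sum_eq_single (a (n + 1))]
        · simp
        · intro q _ hne
          rw [if_neg]
          intro h1
          exact hne h1.symm
        · intro h; exact absurd (mem_univ _) h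
      rw [e1]
      refine (Finset.sum_le_sum fun q _ => hq q).trans ?_
      rw [Finset.sum_add_distrib, ← Finset.mul_sum, e2, Finset.sum_const, card_univ,
        Fintype.card_fin, nsmul_eq_mul]
      nlinarith
  refine ⟨⟨hW, hB⟩, ?_, hmain, ?_⟩
  · obtain ⟨w, w0, w1, z0, z1, hm1, -⟩ := hmean s hs WanderingIntegers (inv_T hW)
    refine ⟨w, w0, lt_of_le_of_ne w1 fun h => ?_, hdens _ w hm1, z0⟩
    rcases hs with rfl | rfl
    · exact Pool.Agent.Q163.WD.one_not_WI (z1.1 h 1 (by norm_num))
    · exact Pool.Agent.Q163.WD.neg_one_not_WI (z1.1 h (-1) (by norm_num))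
  · rintro b K a Q η hb ha hη hfreq S hS ⟨y, hy, hsy⟩ M
    by_contra hcon
    push Not at hcon
    obtain ⟨c, hc, N₀, h, -⟩ := hmain b K hb
    obtain ⟨δ, d0, -, -, z0, -, hA⟩ := h S hS
    have hδ : 0 < δ := lt_of_le_of_ne d0 fun e => z0.1 e.symm y hsy hy
    have hlim : Tendsto (fun N : ℕ => (Real.log N ^ c)⁻¹ + (M : ℝ) / N) atTop (𝓝 0) := by
      have h1 := ((tendsto_rpow_atTop hc).comp hlog).inv_tendsto_atTop
      have h2 : Tendsto (fun N : ℕ => (M : ℝ) / N) atTop (𝓝 0) :=
        tendsto_const_div_atTop_nhds_zero_nat (M : ℝ)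
      simpa using h1.add h2
    have hev : ∀ᶠ N : ℕ in atTop, (Real.log N ^ c)⁻¹ + (M : ℝ) / N < δ * η :=
      hlim.eventually_lt_const (by positivity)
    obtain ⟨N, hN1, hN2, hN3, hN4⟩ :=
      (hfreq.and_eventually (hev.and ((eventually_ge_atTop N₀).and (eventually_ge_atTop 1)))).exists
    have h1 := abs_le.1 (hA a ha Q N hN3).1
    have hN0 : (0 : ℝ) < N := by exact_mod_cast hN4
    have h3 : number (fun n => a n ∈ Q ∧ s * (n : ℤ) ∈ S) N ≤ M := by
      unfold number
      have hsub : {n : ℕ | 1 ≤ n ∧ n ≤ N ∧ a n ∈ Q ∧ s * (n : ℤ) ∈ S} ⊆ ((range M : Finset ℕ) : Set ℕ) := by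
        rintro n ⟨-, -, q1, q2⟩
        rw [coe_range, Set.mem_Iio]
        by_contra hlt
        exact hcon n (not_lt.1 hlt) q1 q2
      have := Set.ncard_le_ncard hsub (Finset.finite_toSet _)
      rw [Set.ncard_coe_finset, card_range] at this
      exact_mod_cast this
    have h4 : δ * (η * N) ≤ δ * number (fun n => a n ∈ Q) N := mul_le_mul_of_nonneg_left hN1 hδ.le
    have h5 : ((Real.log N ^ c)⁻¹ + (M : ℝ) / N) * N = N / Real.log N ^ c + M := by
      field_simp
    have h6 : ((Real.log N ^ c)⁻¹ + (M : ℝ) / N) * N < δ * η * N :=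
      mul_lt_mul_of_pos_right hN2 hN0
    rw [h5] at h6
    nlinarith

end Pool.Agent.Results.MP_071ec9_an.AutomaticPrediction
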