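import Pool.Agent.Helper25.RB.FinF
import Pool.Agent.Helper25.RB.LIP
import Pool.Agent.Helper25.RB.HOL
import Pool.Agent.Helper25.RB.GR1
import Pool.Agent.Helper25.RB.SEQ
import Pool.Agent.Helper25.RB.SUM
import Pool.Agent.Helper25.RB.PRE
import Pool.Agent.Helper25.RB.LOW

/-!
# Wandering or not: the dimension and the regularity of the boundaries of the Fatou components of the integers

`f₀` is the entire interpolation of the `3x+1` function `T` of Letherman, Schleicher and Wood and `U n` is its Fatou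
component at the integer `n`. A component `U n` is a wandering domain if and only if the trajectory of `n` is divergent.

There is a constant `C` with the following properties.

1. If `U n` is a wandering domain (`n` any integer) then its boundary has Hausdorff dimension exactly `1`, and the
   trajectory of `n` finally stays in `|x| ≥ C`.
2. Let the trajectory `xₖ` of `n` stay in `|x| ≥ C`. Then the following are equivalent: `U n` is wandering; its
   boundary has dimension `1`; its boundary has finite length; its boundary is a regular `C¹` Jordan curve; the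
   conformal radii of the `U xₖ` tend to `0`.
3. The dimension of the boundary is `1 + V` up to bounded factors: `1 + V / C ≤ dim ≤ 1 + C V`, where `V` is the mean
   of `|xₖ|⁻⁴` along the trajectory (which always exists).
4. There are Riemann maps `Ψₖ` of `U xₖ`, homeomorphisms on the closures, with `Ψₖ(0) = xₖ`, `Ψₖ'(0) = ± radius xₖ` and
   `f₀(Ψₖ(z)) = Ψₖ₊₁(z²)` on the closed disc. If `|xⱼ| ≥ M` for `j ≥ k` then `Ψₖ` differs from a linear map by at most
   `C / M² · radius xₖ · |z|`.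
5. If `U n` is wandering then the derivative of `Ψ₀` extends continuously and without zeros to the closed disc. If
   the trajectory stays in `|x| ≥ M`, then it differs from its value at the centre by a factor `1 + O(1/M)`. For
   `0 < α < 1` it is Hölder continuous with exponent `α` on the closed disc if and only if `|xⱼ| ≥ c 2^(α j/2)` for
   some `c > 0` and all `j`: the regularity of the boundary is the growth of the trajectory.
6. So there is an integer in a wandering domain if and only if there is an integer `n` whose trajectory stays in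
   `|x| ≥ C` and whose component has a boundary of dimension `1`.
-/

set_option autoImplicit false

open Filter Topology Metric Set MeasureTheory Pool.Agent.H384R2.Fatou

namespace Pool.Agent.Results.MP_071ec9_an.BoundaryRegularity

/-- The entire function of Letherman, Schleicher and Wood; `f₀ n = T n` for every integer `n`. -/
noncomputable def f₀ (z : ℂ) : ℂ :=
  z / 2 + (z + 1 / 2) * ((1 - Complex.cos (Real.pi * z)) / 2) +
    1 / Real.pi * (1 / 2 - Complex.cos (Real.pi * z)) * Complex.sin (Real.pi * z)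

/-- The `3x+1` function. -/
def T (n : ℤ) : ℤ := if n % 2 = 0 then n / 2 else (3 * n + 1) / 2

/-- The Fatou component of `f₀` which contains the integer `n`. -/
def U (n : ℤ) : Set ℂ := FatouComponent f₀ (n : ℂ)

/-- The radius `ρ(n) = exp (- ∑_{i ≥ 0} 2^{-(i+1)} log (π²/4 · |T^i n + 1/2|))`. -/
noncomputable def radius (n : ℤ) : ℝ :=
  Real.exp (-∑' i : ℕ, Real.log (Real.pi ^ 2 / 4 * |((T^[i] n : ℤ) : ℝ) + 1 / 2|) / 2 ^ (i + 1))

/-- `Ψ` maps the closed unit disc homeomorphically onto the closure of `V`, the open disc conformally onto `V` and the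
unit circle onto the boundary of `V`. -/
structure RiemannMap (Ψ : ℂ → ℂ) (V : Set ℂ) : Prop where
  continuousOn : ContinuousOn Ψ (closedBall 0 1)
  injOn : InjOn Ψ (closedBall 0 1)
  holomorphic : DifferentiableOn ℂ Ψ (ball 0 1)
  inside : Ψ '' ball 0 1 = V
  closed : Ψ '' closedBall 0 1 = closure V
  boundary : Ψ '' sphere 0 1 = frontier V

/-- `J` is a Jordan curve with a continuously differentiable regular parametrization. -/
def SmoothJordanCurve (J : Set ℂ) : Prop :=
  ∃ γ : ℝ → ℂ, ContDiff ℝ 1 γ ∧ Function.Periodic γ (2 * Real.pi) ∧ (∀ θ, deriv γ θ ≠ 0) ∧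
    InjOn γ (Ico 0 (2 * Real.pi)) ∧ range γ = J

/-- **Dimension and regularity of the boundaries.** -/
theorem result : ∃ C : ℝ, 1 ≤ C ∧
    (∀ n : ℤ, IsWanderingDomain f₀ (U n) →
      dimH (frontier (U n)) = 1 ∧ ∀ᶠ k : ℕ in atTop, C ≤ |((T^[k] n : ℤ) : ℝ)|) ∧
    (∀ n : ℤ, (∀ k : ℕ, C ≤ |((T^[k] n : ℤ) : ℝ)|) →
      List.TFAE [IsWanderingDomain f₀ (U n), dimH (frontier (U n)) = 1, μH[1] (frontier (U n)) < ⊤,
        SmoothJordanCurve (frontier (U n)), Tendsto (fun k : ℕ => radius (T^[k] n)) atTop (𝓝 0)] ∧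
      (∃ V : ℝ, Tendsto (fun N : ℕ => (∑ k ∈ Finset.range N, 1 / |((T^[k] n : ℤ) : ℝ)| ^ 4) / (N : ℝ)) atTop (𝓝 V) ∧
        ENNReal.ofReal (1 + V / C) ≤ dimH (frontier (U n)) ∧
        dimH (frontier (U n)) ≤ ENNReal.ofReal (1 + C * V)) ∧
      ∃ Ψ : ℕ → ℂ → ℂ,
        (∀ k : ℕ, RiemannMap (Ψ k) (U (T^[k] n)) ∧ Ψ k 0 = ((T^[k] n : ℤ) : ℂ) ∧
          (deriv (Ψ k) 0 = (radius (T^[k] n) : ℂ) ∨ deriv (Ψ k) 0 = -(radius (T^[k] n) : ℂ)) ∧
          (∀ z ∈ closedBall (0 : ℂ) 1, f₀ (Ψ k z) = Ψ (k + 1) (z ^ 2)) ∧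
          ∀ M : ℝ, C ≤ M → (∀ j : ℕ, k ≤ j → M ≤ |((T^[j] n : ℤ) : ℝ)|) →
            ∀ z ∈ closedBall (0 : ℂ) 1, ‖Ψ k z - (((T^[k] n : ℤ) : ℂ) + deriv (Ψ k) 0 * z)‖ ≤
              C / M ^ 2 * radius (T^[k] n) * ‖z‖) ∧
        (IsWanderingDomain f₀ (U n) → ∃ Ψ' : ℂ → ℂ,
          (∀ z ∈ ball (0 : ℂ) 1, HasDerivAt (Ψ 0) (Ψ' z) z) ∧ ContinuousOn Ψ' (closedBall 0 1) ∧
          (∀ z ∈ closedBall (0 : ℂ) 1, Ψ' z ≠ 0) ∧
          (∀ M : ℝ, C ≤ M → (∀ k : ℕ, M ≤ |((T^[k] n : ℤ) : ℝ)|) →
            ∀ z ∈ closedBall (0 : ℂ) 1, ‖Ψ' z - Ψ' 0‖ ≤ C / M * ‖Ψ' 0‖) ∧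
          ∀ α : ℝ, 0 < α → α < 1 →
            ((∃ K : ℝ, ∀ z ∈ closedBall (0 : ℂ) 1, ∀ w ∈ closedBall (0 : ℂ) 1,
              ‖Ψ' z - Ψ' w‖ ≤ K * ‖z - w‖ ^ α) ↔
            ∃ c : ℝ, 0 < c ∧ ∀ j : ℕ, c * (2 : ℝ) ^ (α * j / 2) ≤ |((T^[j] n : ℤ) : ℝ)|))) ∧
    ((∃ n : ℤ, IsWanderingDomain f₀ (U n)) ↔
      ∃ n : ℤ, (∀ k : ℕ, C ≤ |((T^[k] n : ℤ) : ℝ)|) ∧ dimH (frontier (U n)) = 1) := by
  obtain ⟨C1, hC1, h1⟩ := Pool.Agent.Helper25.RB.dichotomy
  obtain ⟨C2, hC2, h2⟩ := Pool.Agent.Helper25.RB.maps_all Pool.Agent.Helper25.RB.LIP.main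
    (Pool.Agent.Helper25.RB.HOL.main Pool.Agent.Helper25.RB.LIP.main)
    (Pool.Agent.Helper25.RB.GR1.main Pool.Agent.Helper25.RB.LIP.main) Pool.Agent.Helper25.RB.SEQ.main
    Pool.Agent.Helper25.RB.SUM.main
  obtain ⟨C3, hC3, h3⟩ := Pool.Agent.Helper25.RB.formula
  have hT := Pool.Agent.Y151.WD.t_TAIL
  have hdim : ∀ n : ℤ, IsWanderingDomain f₀ (U n) → dimH (frontier (U n)) = 1 := fun n hn =>
    Pool.Agent.Helper25.RB.dim_wander Pool.Agent.Helper25.RB.PRE.main Pool.Agent.Helper25.RB.LOW.main n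
      ((Pool.Agent.H723R2.LSW.wandering_iff n).1 hn)
  obtain ⟨C, hC⟩ : ∃ C : ℝ, C = max C1 (max C2 C3) := ⟨_, rfl⟩
  have hCC1 : C1 ≤ C := by rw [hC]; exact le_max_left _ _
  have hCC2 : C2 ≤ C := by rw [hC]; exact (le_max_left _ _).trans (le_max_right _ _)
  have hCC3 : C3 ≤ C := by rw [hC]; exact (le_max_right _ _).trans (le_max_right _ _)
  have hdich : ∀ n : ℤ, (∀ k : ℕ, C ≤ |((T^[k] n : ℤ) : ℝ)|) → ¬ IsWanderingDomain f₀ (U n) →
      ¬ dimH (frontier (U n)) ≤ 1 := by
    intro n hn hw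
    exact h1 n (fun k => hCC1.trans (hn k)) (fun h => hw ((Pool.Agent.H723R2.LSW.wandering_iff n).2 h))
  have hlarge : ∀ n : ℤ, IsWanderingDomain f₀ (U n) → ∀ᶠ k : ℕ in atTop, C ≤ |((T^[k] n : ℤ) : ℝ)| := by
    intro n hw
    have hwild : Pool.Agent.H723R2.LSW.Wild n := (Pool.Agent.H723R2.LSW.wandering_iff n).1 hw
    exact (Pool.Agent.H723R2.LSW.wild_tendsto hwild).eventually (eventually_ge_atTop C)
  refine ⟨C, hC1.trans hCC1, fun n hn => ⟨hdim n hn, hlarge n hn⟩, fun n hn => ?_, ?_, ?_⟩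
  · obtain ⟨τ, Ψ, hΨ, hΨ'⟩ := h2 n (fun k => hCC2.trans (hn k))
    refine ⟨?_, ?_, Ψ, fun k => ?_, fun hw => ?_⟩
    · tfae_have 1 → 4 := by
        intro hw
        obtain ⟨Ψ', h8, h9, h10, -, -⟩ := hΨ' ((Pool.Agent.H723R2.LSW.wandering_iff n).1 hw)
        obtain ⟨-, -, -, hc, hi, -, -, -, -, h5, -⟩ := hΨ 0
        have h13 := Pool.Agent.Helper25.RB.smooth_curve hc hi h8 h9 h10
        rw [h5] at h13
        exact h13
      tfae_have 4 → 3 := fun h => Pool.Agent.Helper25.RB.SmoothCurve.length h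
      tfae_have 3 → 1 := by
        intro h
        by_contra hcon
        apply hdich n hn hcon
        have h5 := dimH_le_of_hausdorffMeasure_ne_top (d := 1) (s := frontier (U n)) (by exact_mod_cast h.ne)
        simpa using h5
      tfae_have 1 → 2 := hdim n
      tfae_have 2 → 1 := by
        intro h
        by_contra hcon
        exact hdich n hn hcon h.le
      tfae_have 1 ↔ 5 := by
        have hiff : IsWanderingDomain f₀ (U n) ↔ Pool.Agent.H723R2.LSW.Wild n :=
          Pool.Agent.H723R2.LSW.wandering_iff n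
        rw [hiff]
        constructor
        · intro hw
          obtain ⟨_, _, _, _, hK⟩ := Pool.Agent.Y282.WD.exists_consts Pool.Agent.Y888.WD.t_NEAR
            Pool.Agent.Y888.WD.t_LOW
          have h1 : Tendsto (fun k : ℕ => 3 / Pool.Agent.Y282.WD.bt (T^[k] n)) atTop (𝓝 0) :=
            (Pool.Agent.Y282.WD.bt_tendsto hK hT hw).const_div_atTop 3
          refine squeeze_zero (fun k => (hT.2 _).1.le) (fun k => ?_) h1
          have h2 := Pool.Agent.Y282.WD.bt_pos (T^[k] n) hT
          rw [le_div_iff₀ h2, mul_comm]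
          exact (hT.2 (T^[k] n)).2.2.2
        · intro h
          by_contra hcon
          obtain ⟨k, p, a, hp, ha, hk⟩ := Pool.Agent.H723R2.LSW.tame_hits hcon
          have h2 : Tendsto (fun i : ℕ => k + p * i) atTop atTop := by
            refine tendsto_atTop_mono (fun i => ?_) tendsto_id
            have : i ≤ p * i := Nat.le_mul_of_pos_left i hp
            simp only [id]
            omega
          have h3 := h.comp h2
          have h4 : ∀ i : ℕ, T^[k + p * i] n = a := by
            intro i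
            rw [add_comm, Function.iterate_add_apply]
            have hk' : T^[k] n = a := hk
            rw [hk', Function.iterate_mul]
            exact Function.iterate_fixed ha i
          have h5 : (fun k : ℕ => radius (T^[k] n)) ∘ (fun i : ℕ => k + p * i) = fun _ => radius a := by
            funext i
            simp only [Function.comp_apply, h4]
          rw [h5] at h3
          have h6 := tendsto_nhds_unique h3 tendsto_const_nhds
          have h7 : 0 < radius a := (hT.2 a).1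
          rw [← h6] at h7
          exact lt_irrefl _ h7
      tfae_finish
    · obtain ⟨V, hV, hV0, -, h5, h6⟩ := h3 n (fun k => hCC3.trans (hn k))
      refine ⟨V, hV, le_trans (ENNReal.ofReal_le_ofReal ?_) h5, h6.trans (ENNReal.ofReal_le_ofReal ?_)⟩
      · gcongr
      · gcongr
    · obtain ⟨h1, h2, h3, h4, h5, h6, h7, h8, h9, h10, h11⟩ := hΨ k
      have hd : deriv (Ψ k) 0 = (τ k : ℂ) := h2.deriv
      refine ⟨⟨h4, h5, h6, h8, h9, h10⟩, h3, ?_, fun z hz => h7 z (by simpa using hz), fun M hM hj z hz => ?_⟩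
      · rw [hd]
        have h13 : |τ k| = radius (T^[k] n) := h1
        rcases abs_cases (τ k) with ⟨h14, -⟩ | ⟨h14, -⟩
        · left; rw [← h13, h14]
        · right; rw [← h13, h14]; push_cast; ring
      · have h13 := h11 M (hCC2.trans hM) (fun j => hj (k + j) (by omega)) z (by simpa using hz)
        rw [hd]
        refine h13.trans ?_
        have h14 : 0 < Pool.Agent.Y282.WD.rho (T^[k] n) := (hT.2 _).1
        have h15 : 0 < M := by linarith
        exact mul_le_mul_of_nonneg_right (mul_le_mul_of_nonneg_right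
          (div_le_div_of_nonneg_right hCC2 (by positivity)) h14.le) (norm_nonneg z)
    · obtain ⟨Ψ', h8, h9, h10, h11, h12⟩ := hΨ' ((Pool.Agent.H723R2.LSW.wandering_iff n).1 hw)
      refine ⟨Ψ', h10, h8, h9, fun M hM hj z hz => ?_, h12⟩
      have hM0 : 0 < M := by linarith
      refine (h11 M (hCC2.trans hM) hj z hz).trans ?_
      gcongr
  · rintro ⟨n, hn⟩
    have hwild : Pool.Agent.H723R2.LSW.Wild n := (Pool.Agent.H723R2.LSW.wandering_iff n).1 hn
    obtain ⟨k, hk⟩ := (hlarge n hn).exists_forall_of_atTop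
    refine ⟨T^[k] n, fun j => ?_, hdim _ ?_⟩
    · have h3 := hk (j + k) (by omega)
      rw [← Function.iterate_add_apply]
      exact h3
    · exact (Pool.Agent.H723R2.LSW.wandering_iff _).2 (Pool.Agent.H723R2.LSW.wild_iter hwild k)
  · rintro ⟨n, hn, h3⟩
    refine ⟨n, ?_⟩
    by_contra hcon
    exact hdich n hn hcon h3.le

end Pool.Agent.Results.MP_071ec9_an.BoundaryRegularity
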