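import Mathlib
import Pool.Agent.Helper53.GO.Grand

/-!
# MP_071ec9_an: the grand orbits of the iterates of the entire `3x+1` function

`f₀` is the entire function of Letherman, Schleicher and Wood which interpolates the `3x+1` function.  Let
`s = 1` or `s = -1`; densities are natural densities among the integers of sign `s`.  The grand orbit of an
integer `x` under the iterate `f₀^m` consists of the integers `y` with `f₀^(mi)(y) = f₀^(mj)(x)` for some
`i, j ≥ 0`.  It has a positive density `D m x`, and this density tells whether `x` lies in a wandering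
domain:

* if the Fatou component of `x` is a wandering domain, then `D m x = D 1 x / m` (the `m` grand orbits of
  `f₀^m` into which the grand orbit of `x` under `f₀` splits have equal densities);
* if `x` is attracted to an integer cycle of exact period `p`, then `D m x = D 1 x / gcd (m, p)`.

So `x` lies in a wandering domain if and only if `D m x → 0` for `m → ∞`, and if and only if
`D q x ≠ D 1 x` for infinitely many primes `q`.

More generally, every set of integers which is completely invariant under some iterate `f₀^m` has a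
density `δ`; its preimages under `f₀`, `f₀^2`, ... have the same density `δ`; and `δ = 0` only if the
set has no element of sign `s`.
-/

set_option autoImplicit false

namespace Pool.Agent.Results.MP_071ec9_an.GrandOrbitsOfIterates

open Filter Topology
open Pool.Agent.H384R2.Fatou (FatouSet FatouComponent IsWanderingDomain)

/-- The entire function of Letherman, Schleicher and Wood interpolating the `3x+1` map. -/
noncomputable def f₀ (z : ℂ) : ℂ :=
  z / 2 + (z + 1 / 2) * ((1 - Complex.cos (Real.pi * z)) / 2) +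
    1 / Real.pi * (1 / 2 - Complex.cos (Real.pi * z)) * Complex.sin (Real.pi * z)

/-- Among the integers of sign `s` the set `S` has natural density `d`. -/
def HasDensity (s : ℤ) (S : Set ℤ) (d : ℝ) : Prop :=
  Tendsto (fun N : ℕ => ({n : ℤ | 0 < s * n ∧ s * n ≤ N ∧ n ∈ S}.ncard : ℝ) / N) atTop (𝓝 d)

/-- The Fatou component of `f₀` containing the integer `x` is a wandering domain. -/
def Wandering (x : ℤ) : Prop := IsWanderingDomain f₀ (FatouComponent f₀ x)

/-- The integer `c` is a periodic point of `f₀` of exact period `p`. -/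
def HasExactPeriod (c : ℤ) (p : ℕ) : Prop :=
  0 < p ∧ f₀^[p] (c : ℂ) = c ∧ ∀ q : ℕ, 0 < q → f₀^[q] (c : ℂ) = c → p ≤ q

/-- The integer `x` is in the Fatou set, its component is not a wandering domain and is attracted to
the cycle of the integer `c`, of period `p`: all points `z` of the component satisfy
`f₀^(k+pn)(z) → c` as `n → ∞`, for some `k`. -/
def Basin (c : ℤ) (p : ℕ) (x : ℤ) : Prop :=
  (x : ℂ) ∈ FatouSet f₀ ∧ ¬ Wandering x ∧
    ∃ k : ℕ, ∀ z ∈ FatouComponent f₀ x,
      Tendsto (fun n : ℕ => f₀^[k + p * n] z) atTop (𝓝 (c : ℂ))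

/-- The integers in the grand orbit of the integer `x` under the iterate `f₀^m`. -/
def GrandOrbit (m : ℕ) (x : ℤ) : Set ℤ :=
  {y | ∃ i j : ℕ, (f₀^[m])^[i] (y : ℂ) = (f₀^[m])^[j] (x : ℂ)}

/-- The set `S` of integers is completely invariant under the iterate `f₀^m`. -/
def CompletelyInvariant (m : ℕ) (S : Set ℤ) : Prop :=
  ∀ x y : ℤ, f₀^[m] (x : ℂ) = y → (x ∈ S ↔ y ∈ S)

/-- The integers which `f₀^j` maps into `S`. -/
def Preimage (j : ℕ) (S : Set ℤ) : Set ℤ := {x | ∃ y ∈ S, f₀^[j] (x : ℂ) = (y : ℂ)}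

/-! ### proofs -/

open Pool.Agent.H723R2.LSW (T Mer Wild cast_iter basin_iff wandering_iff tame_hits)
open Pool.Agent.Helper53.GO (G G_dens G_self cnt cnt_pos cnt_one cnt_wild cnt_tame Inv Dens)

theorem f₀_eq : f₀ = Pool.Agent.H723R2.LSW.f₀ := rfl

theorem iter_cast (n : ℤ) (k : ℕ) : f₀^[k] (n : ℂ) = ((T^[k] n : ℤ) : ℂ) :=
  Pool.Agent.H723R2.LSW.f₀_iter n k

theorem wand_iff (x : ℤ) : Wandering x ↔ Wild x := wandering_iff x

theorem grand_eq (m : ℕ) (x : ℤ) : GrandOrbit m x = G m x := by
  ext y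
  refine exists_congr fun i => exists_congr fun j => ?_
  rw [← Function.iterate_mul, ← Function.iterate_mul, iter_cast, iter_cast, Int.cast_inj]

theorem inv_of {m : ℕ} {S : Set ℤ} (h : CompletelyInvariant m S) : Inv m S :=
  fun x => h x _ (iter_cast x m)

theorem preimage_eq (j : ℕ) (S : Set ℤ) : Preimage j S = {x | T^[j] x ∈ S} := by
  ext x
  constructor
  · rintro ⟨y, hy, h⟩
    rw [iter_cast, Int.cast_inj] at h
    show T^[j] x ∈ S
    rw [h]
    exact hy
  · intro h
    exact ⟨_, h, iter_cast x j⟩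

/-- **The densities of the grand orbits of the iterates of `f₀`.** -/
theorem result (s : ℤ) (hs : s = 1 ∨ s = -1) : ∃ D : ℕ → ℤ → ℝ,
    (∀ (m : ℕ) (x : ℤ), 0 < m → 0 < s * x → 0 < D m x ∧ HasDensity s (GrandOrbit m x) (D m x)) ∧
    (∀ (m : ℕ) (x : ℤ), 0 < m → 0 < s * x → Wandering x → D m x = D 1 x / m) ∧
    (∀ (m : ℕ) (x c : ℤ) (p : ℕ), 0 < m → 0 < s * x → HasExactPeriod c p → Basin c p x →
      D m x = D 1 x / Nat.gcd m p) ∧
    (∀ x : ℤ, 0 < s * x →
      [Wandering x,
        ∀ m : ℕ, 0 < m → D m x = D 1 x / m,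
        Tendsto (fun m : ℕ => D m x) atTop (𝓝 0),
        {q : ℕ | q.Prime ∧ D q x ≠ D 1 x}.Infinite].TFAE) ∧
    (∀ (m : ℕ) (S : Set ℤ), 0 < m → CompletelyInvariant m S → ∃ δ : ℝ,
      (∀ j : ℕ, HasDensity s (Preimage j S) δ) ∧ (δ = 0 ↔ ∀ x ∈ S, ¬ 0 < s * x)) := by
  obtain ⟨-, β, -, -, hβ, -, -⟩ := Pool.Agent.H723R2.LSW.main hs
  have hβ' : ∀ x : ℤ, 0 < s * x → Dens s {y | Mer y x} (β x) := by
    intro x hx
    have h1 := (hβ x hx).2
    have h2 : {n : ℤ | ∃ i j : ℕ, Pool.Agent.H723R2.LSW.f₀^[i] (n : ℂ) =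
        Pool.Agent.H723R2.LSW.f₀^[j] (x : ℂ)} = {y | Mer y x} := by
      ext y
      refine exists_congr fun i => exists_congr fun j => ?_
      rw [Pool.Agent.H723R2.LSW.f₀_iter, Pool.Agent.H723R2.LSW.f₀_iter, Int.cast_inj]
    rw [h2] at h1
    exact h1
  have hβ0 : ∀ x : ℤ, 0 < s * x → 0 < β x := fun x hx => (hβ x hx).1
  -- the density of the grand orbit
  set D : ℕ → ℤ → ℝ := fun m x => cnt m x * β x / m with hD
  have hD1 : ∀ x, D 1 x = β x := by
    intro x
    show (cnt 1 x : ℝ) * β x / (1 : ℕ) = β x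
    rw [cnt_one]
    simp
  have hwild : ∀ (m : ℕ) (x : ℤ), 0 < m → Wandering x → D m x = D 1 x / m := by
    intro m x hm hx
    rw [hD1]
    show (cnt m x : ℝ) * β x / m = β x / m
    rw [cnt_wild hm ((wand_iff x).1 hx), Nat.cast_one, one_mul]
  have htame : ∀ (m : ℕ) (x c : ℤ) (p : ℕ), 0 < m → 0 < p → T^[p] c = c →
      (∀ q : ℕ, 0 < q → T^[q] c = c → p ≤ q) → Mer x c → D m x = D 1 x / Nat.gcd m p := by
    intro m x c p hm hp hc hmin hx
    have h1 := cnt_tame hm hp hc hmin hx
    have h2 : (Nat.gcd m p : ℝ) * cnt m x = m := by exact_mod_cast h1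
    have hg : (0 : ℝ) < Nat.gcd m p := by exact_mod_cast Nat.gcd_pos_of_pos_left p hm
    have hm' : (0 : ℝ) < m := by exact_mod_cast hm
    rw [hD1]
    show (cnt m x : ℝ) * β x / m = β x / Nat.gcd m p
    rw [div_eq_div_iff hm'.ne' hg.ne', ← h2]
    ring
  have hexact : ∀ x : ℤ, ¬ Wandering x → ∃ (c : ℤ) (p : ℕ), 0 < p ∧ T^[p] c = c ∧
      (∀ q : ℕ, 0 < q → T^[q] c = c → p ≤ q) ∧ Mer x c := by
    intro x hx
    obtain ⟨k, p, c, hp, hc, hk⟩ := tame_hits fun h => hx ((wand_iff x).2 h)
    refine ⟨c, Function.minimalPeriod T c, Function.IsPeriodicPt.minimalPeriod_pos hp hc,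
      Function.isPeriodicPt_minimalPeriod T c,
      fun q hq h => Function.IsPeriodicPt.minimalPeriod_le hq h, k, 0, hk⟩
  refine ⟨D, fun m x hm hx => ⟨?_, ?_⟩, fun m x hm _ hx => hwild m x hm hx, ?_, fun x hx => ?_, ?_⟩
  · have h1 : (0 : ℝ) < cnt m x := by exact_mod_cast cnt_pos hm x
    have h2 : (0 : ℝ) < m := by exact_mod_cast hm
    exact div_pos (mul_pos h1 (hβ0 x hx)) h2
  · have h1 := G_dens hs hm (hβ' x hx) 0
    rw [grand_eq]
    exact h1
  · rintro m x c p hm _ ⟨hp, hc, hmin⟩ hx
    have hc' : T^[p] c = c := cast_iter.1 hc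
    exact htame m x c p hm hp hc' (fun q hq h => hmin q hq (cast_iter.2 h)) ((basin_iff hp hc').1 hx)
  · have h12 : Wandering x → ∀ m : ℕ, 0 < m → D m x = D 1 x / m := fun h m hm => hwild m x hm h
    have hpos : 0 < D 1 x := by
      rw [hD1]
      exact hβ0 x hx
    tfae_have 1 → 2 := h12
    tfae_have 2 → 3 := by
      intro h
      have h1 : Tendsto (fun m : ℕ => D 1 x / m) atTop (𝓝 0) :=
        tendsto_const_div_atTop_nhds_zero_nat (D 1 x)
      refine h1.congr' ?_
      filter_upwards [eventually_gt_atTop 0] with m hm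
      rw [h m hm]
    tfae_have 3 → 1 := by
      intro h
      by_contra hw
      obtain ⟨c, p, hp, hc, hmin, hxc⟩ := hexact x hw
      have hp' : (0 : ℝ) < p := by exact_mod_cast hp
      have h1 : D 1 x / p ≤ 0 := by
        refine ge_of_tendsto h ?_
        filter_upwards [eventually_gt_atTop 0] with m hm
        rw [htame m x c p hm hp hc hmin hxc]
        refine div_le_div_of_nonneg_left hpos.le ?_ ?_
        · exact_mod_cast Nat.gcd_pos_of_pos_left p hm
        · exact_mod_cast Nat.gcd_le_right m hp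
      have h2 : 0 < D 1 x / p := div_pos hpos hp'
      linarith
    tfae_have 2 → 4 := by
      intro h
      refine Nat.infinite_setOfPred_prime.mono fun q hq => ⟨hq, ?_⟩
      have hq' : Nat.Prime q := hq
      rw [h q hq'.pos]
      have h1 : (2 : ℝ) ≤ q := by exact_mod_cast hq'.two_le
      have h2 : D 1 x / q < D 1 x := div_lt_self hpos (by linarith)
      exact h2.ne
    tfae_have 4 → 1 := by
      intro h
      by_contra hw
      obtain ⟨c, p, hp, hc, hmin, hxc⟩ := hexact x hw
      refine h ((Set.finite_Iic p).subset fun q hq => ?_)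
      by_contra hqp
      have h1 : p < q := not_le.1 hqp
      have h2 : Nat.gcd q p = 1 :=
        (Nat.Prime.coprime_iff_not_dvd hq.1).2 fun h3 => absurd (Nat.le_of_dvd hp h3) (not_le.2 h1)
      refine hq.2 ?_
      rw [htame q x c p hq.1.pos hp hc hmin hxc, h2, Nat.cast_one, div_one]
    tfae_finish
  · intro m S hm hS
    obtain ⟨δ, h1, h2⟩ := (inv_of hS).density hs hm
    refine ⟨δ, fun j => ?_, h2⟩
    rw [preimage_eq]
    exact h1 j

end Pool.Agent.Results.MP_071ec9_an.GrandOrbitsOfIterates
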