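import Pool.Graph.R_seed8.R630.WD.Basic
import Pool.Agent.Helper51.WP.Fin

/-!
# Patterns of primes and almost primes in the Fatou components of the entire interpolation `f₀`

For almost all primes `p` and every finite pattern `T` there are many `d`, in every range `d ≤ D` with
`D` at least a small power of `p`, such that the numbers `p + d t`, `t ∈ T`, are primes and the
`f₀`-orbits of all `± (p + d t)` meet that of `± p`. The same holds for almost all tuples of almost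
primes. So the wandering domains, if there are any, contain these patterns.
-/

set_option autoImplicit false

open Filter Topology Metric Set

namespace Pool.Agent.Results.MP_071ec9_an.MergingPrimePatterns

open Pool.Agent.H384R2.Fatou

/-- The entire function of Letherman, Schleicher and Wood; `f₀ n = T n` for every integer `n`, where
`T` is the `3x+1` function. -/
noncomputable def f₀ (z : ℂ) : ℂ :=
  z / 2 + (z + 1 / 2) * ((1 - Complex.cos (Real.pi * z)) / 2) +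
    1 / Real.pi * (1 / 2 - Complex.cos (Real.pi * z)) * Complex.sin (Real.pi * z)

/-- The integers whose Fatou component is a wandering domain of `f₀`. -/
def WanderingIntegers : Set ℤ := {n | IsWanderingDomain f₀ (FatouComponent f₀ n)}

/-- The set `S` of integers is completely invariant under `f₀`: an integer `n` is in `S` if and only if
`f₀ n` is. -/
def Invariant (S : Set ℤ) : Prop := ∀ n m : ℤ, f₀ (n : ℂ) = m → (n ∈ S ↔ m ∈ S)

/-- Among the integers of sign `s` the set `S` has natural density `d`. -/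
def HasDensity (s : ℤ) (S : Set ℤ) (d : ℝ) : Prop :=
  Tendsto (fun N : ℕ => ({n : ℤ | 0 < s * n ∧ s * n ≤ N ∧ n ∈ S}.ncard : ℝ) / N) atTop (𝓝 d)

/-- The scale `√ (log n) / (log log n) ^ 17`. -/
noncomputable def κ (n : ℕ) : ℝ := √ (Real.log n) / (Real.log (Real.log n)) ^ 17

/-- At some time `t` with `4 ^ t ≤ n` the `f₀`-orbit of `s n` has met those of all its affine
neighbours, the integers `m` with `|2^a 3^b m - 2^a' 3^b' s n| ≤ exp (κ n)`, `a, b, a', b' ≤ κ n`. -/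
def Coalesces (s : ℤ) (n : ℕ) : Prop := ∃ t : ℕ, 4 ^ t ≤ n ∧ ∀ a a' b b' : ℕ,
  (a : ℝ) ≤ κ n → (a' : ℝ) ≤ κ n → (b : ℝ) ≤ κ n → (b' : ℝ) ≤ κ n → ∀ m : ℤ,
  |((2 ^ a * 3 ^ b * m - 2 ^ a' * 3 ^ b' * (s * n) : ℤ) : ℝ)| ≤ Real.exp (κ n) →
  f₀^[t + a'] (m : ℂ) = f₀^[t + a] ((s * n : ℤ) : ℂ)

/-- The `f₀`-orbits of the integers `m` and `n` meet. -/
def Meet (m n : ℤ) : Prop := ∃ i j : ℕ, f₀^[i] (m : ℂ) = f₀^[j] (n : ℂ)

/-- the primes up to `N` -/
def Primes (N : ℕ) : Set ℕ := {p | p.Prime ∧ p ≤ N}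

/-- `P` is nonempty and no prime divides one of the `m + a`, `a ∈ P`, for every `m`. -/
def Admissible (P : Finset ℕ) : Prop :=
  P.Nonempty ∧ ∀ p : ℕ, p.Prime → ∃ m : ℕ, ∀ a ∈ P, ¬ p ∣ m + a

/-- The `1 ≤ n ≤ N` such that the numbers `n + a`, `a ∈ P`, have no prime factors `≤ N ^ (1 / r)`. -/
def Tuples (P : Finset ℕ) (r N : ℕ) : Set ℕ :=
  {n | 1 ≤ n ∧ n ≤ N ∧ ∀ a ∈ P, ∀ p : ℕ, p.Prime → p ∣ n + a → (N : ℝ) ^ (1 / (r : ℝ)) < p}

/-- The number of the `1 ≤ d ≤ D` such that all `m = n + d t`, `t ∈ T`, are in `B`, coalesce, and the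
`f₀`-orbits of the `s m` meet that of `s n`. -/
noncomputable def merging (s : ℤ) (B : Set ℕ) (T : Finset ℤ) (D n : ℕ) : ℕ :=
  {d : ℕ | 1 ≤ d ∧ d ≤ D ∧ ∀ t ∈ T, ∃ m ∈ B, (m : ℤ) = n + d * t ∧ Coalesces s m ∧
    Meet (s * m) (s * n)}.ncard

/-- The number of the `1 ≤ d ≤ D` such that all `m = n + d t`, `t ∈ T`, are in `B` and `s m ∈ S`. -/
noncomputable def inside (s : ℤ) (S : Set ℤ) (B : Set ℕ) (T : Finset ℤ) (D n : ℕ) : ℕ :=
  {d : ℕ | 1 ≤ d ∧ d ≤ D ∧ ∀ t ∈ T, ∃ m ∈ B, (m : ℤ) = n + d * t ∧ s * m ∈ S}.ncard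

/-- `T` has at most `k` elements, all of absolute value at most `H`, `D ≥ N ^ ε` and
`D H ≤ N ^ (1 - ε)`, `H ≥ 1`. -/
def Range (ε : ℝ) (k N D : ℕ) (T : Finset ℤ) : Prop :=
  T.card ≤ k ∧ (N : ℝ) ^ ε ≤ D ∧ ∃ H : ℕ, 1 ≤ H ∧ (∀ t ∈ T, |t| ≤ H) ∧
    (D : ℝ) * H ≤ (N : ℝ) ^ (1 - ε)

/-! ### conversions -/

open Pool.Agent.TH204.CP (Wk)
open Pool.Agent.H499R2.CO (Tz)
open Pool.Agent.H499R2.ND (Mg Td HD dens_side HD_ncard inv_class)
open Pool.Agent.TH464.PO (AdP QS Sf)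
open Pool.Agent.Helper51.UG (cps)
open Pool.Agent.Helper51.WP (TT Cl In yy Pr allT primePat)

theorem f_iter (k : ℕ) (x : ℤ) : f₀^[k] (x : ℂ) = (((Tz 1)^[k] x : ℤ) : ℂ) :=
  Pool.Agent.H723R2.LSW.f₀_iter x k

theorem coal_iff (s : ℤ) (n : ℕ) : Coalesces s n ↔ Wk s n := by
  unfold Coalesces Wk
  simp only [f_iter, Int.cast_inj]
  rfl

theorem meet_iff (m n : ℤ) : Meet m n ↔ m ∈ Mg (Td 1) n := by
  unfold Meet Mg
  simp only [f_iter, Int.cast_inj]
  rfl

theorem inv_T {S : Set ℤ} (hS : Invariant S) (x : ℤ) : x ∈ S ↔ Tz 1 x ∈ S :=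
  hS x (Tz 1 x) (f_iter 1 x)

theorem wn_invariant : Invariant WanderingIntegers := by
  intro n m h
  have h1 : Tz 1 n = m := by
    have h2 := f_iter 1 n
    simp only [Function.iterate_one] at h2
    rw [h2] at h
    exact_mod_cast h
  rw [← h1]
  exact Pool.Agent.R630.WD.wn_inv n

theorem tuples_eq (P : Finset ℕ) (r N : ℕ) : Tuples P r N = TT P (yy r N) N := by
  ext n
  unfold Tuples TT Sf QS yy
  simp only [Set.mem_ofPred_eq]
  constructor
  · rintro ⟨h1, h2, h3⟩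
    refine ⟨by omega, h2, fun p hp => ?_⟩
    rw [Pool.Agent.H373R2.T7.mem_pz] at hp
    rintro ⟨a, ha, hd⟩
    have h4 := h3 a ha p hp.2 hd
    have h5 := (Nat.floor_lt (by positivity)).2 h4
    omega
  · rintro ⟨h1, h2, h3⟩
    refine ⟨by omega, h2, fun a ha p hp hd => ?_⟩
    rw [← Nat.floor_lt (by positivity)]
    by_contra hcon
    exact h3 p (Pool.Agent.H373R2.T7.mem_pz.2 ⟨by omega, hp⟩) ⟨a, ha, hd⟩

theorem merging_eq (s : ℤ) (B : Set ℕ) (T : Finset ℤ) (D n : ℕ) :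
    merging s B T D n = cps (Cl s B n) T D n := by
  unfold merging cps
  congr 1
  ext d
  simp only [Set.mem_ofPred_eq]
  refine and_congr_right fun _ => and_congr_right fun _ => forall₂_congr fun t _ => ?_
  constructor
  · rintro ⟨m, h1, h2, h3, h4⟩
    exact ⟨m, ⟨h1, (coal_iff s m).1 h3, (meet_iff _ _).1 h4⟩, h2⟩
  · rintro ⟨m, ⟨h1, h3, h4⟩, h2⟩
    exact ⟨m, h1, h2, (coal_iff s m).2 h3, (meet_iff _ _).2 h4⟩

theorem inside_eq (s : ℤ) (S : Set ℤ) (B : Set ℕ) (T : Finset ℤ) (D n : ℕ) :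
    inside s S B T D n = cps (In s S B) T D n := by
  unfold inside cps
  congr 1
  ext d
  simp only [Set.mem_ofPred_eq]
  refine and_congr_right fun _ => and_congr_right fun _ => forall₂_congr fun t _ => ?_
  constructor
  · rintro ⟨m, h1, h2, h3⟩
    exact ⟨m, ⟨h1, h3⟩, h2⟩
  · rintro ⟨m, ⟨h1, h3⟩, h2⟩
    exact ⟨m, h1, h2, h3⟩

/-- Let `s = 1` or `s = -1`. `Range ε k N D T` means that the pattern `T` has at most `k` elements, of
absolute value at most `H`, and `D ≥ N ^ ε`, `D H ≤ N ^ (1 - ε)`.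
(1) PRIMES. For all `k`, `0 < ε < 1` and `η > 0`, if `N` is large, for all `D` and `T` in this range and
all but `η N / log N` of the primes `p ≤ N` there are at least `D ^ (1 - ε)` dilations `d ≤ D` such that
the numbers `p + d t`, `t ∈ T`, are primes up to `N`, coalesce with all their affine neighbours, and the
`f₀`-orbits of the `s (p + d t)` meet that of `s p`.
(2) TUPLES OF ALMOST PRIMES. For all `K`, `A`, `k`, `0 < ε < 1`, `η > 0`, if `r` is large and `N` is large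
(in terms of `r`), then for all admissible sets `P` of `K` shifts `a ≤ N ^ A` and all `D` and `T` in the
range, with `B` the set of the `n ≤ N` such that no `n + a`, `a ∈ P`, has a prime factor `≤ N ^ (1 / r)`:
`B` is not empty and for all but `η |B|` of the `n ∈ B` there are at least `D ^ (1 - ε)` dilations
`d ≤ D` such that the numbers `n + d t`, `t ∈ T`, are in `B`, coalesce, and the `f₀`-orbits of the
`s (n + d t)` meet that of `s n`.
(3) INVARIANT SETS. Every set `S` of integers which is completely invariant under `f₀` has a density `δ`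
among the integers of sign `s`. The number of the `n ∈ B` with `s n ∈ S` for which there are at least
`D ^ (1 - ε)` dilations `d ≤ D` such that all `n + d t` are in `B` and all `s (n + d t)` in `S` is `δ |B|`
up to `η |B|`, under the conditions of (2), uniformly in `S`. This holds for the set `W` of the integers
in wandering domains.
(4) CRITERION. Let `P` be admissible, `k`, `0 < ε < 1`. If for every `η > 0` and arbitrarily large `r`
and `N` there are `D` and `T` in the range such that at most `η |B|` of the `n ∈ B` are such that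
`s n ∈ W` and for at least `D ^ (1 - ε)` dilations `d ≤ D` all `n + d t`, `t ∈ T`, are in `B` and all
`s (n + d t)` are in `W`, then no integer of sign `s` lies in a wandering domain. -/
theorem result (s : ℤ) (hs : s = 1 ∨ s = -1) :
    (∀ (k : ℕ) (ε η : ℝ), 0 < ε → ε < 1 → 0 < η → ∃ N₀ : ℕ, ∀ N : ℕ, N₀ ≤ N →
      ∀ (D : ℕ) (T : Finset ℤ), Range ε k N D T →
      ({p : ℕ | p ∈ Primes N ∧ (merging s (Primes N) T D p : ℝ) < (D : ℝ) ^ (1 - ε)}.ncard : ℝ) ≤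
        η * N / Real.log N) ∧
    (∀ (K A k : ℕ) (ε η : ℝ), 0 < ε → ε < 1 → 0 < η → ∃ r₀ : ℕ, ∀ r : ℕ, r₀ ≤ r → ∃ N₀ : ℕ, ∀ N : ℕ,
      N₀ ≤ N → ∀ P : Finset ℕ, P.card = K → (∀ a ∈ P, a ≤ N ^ A) → Admissible P →
      0 < (Tuples P r N).ncard ∧ ∀ (D : ℕ) (T : Finset ℤ), Range ε k N D T →
      ({n : ℕ | n ∈ Tuples P r N ∧
        (merging s (Tuples P r N) T D n : ℝ) < (D : ℝ) ^ (1 - ε)}.ncard : ℝ) ≤
        η * (Tuples P r N).ncard) ∧
    ((∀ S : Set ℤ, Invariant S → ∃ δ : ℝ, HasDensity s S δ) ∧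
      Invariant WanderingIntegers ∧
      ∀ (K A k : ℕ) (ε η : ℝ), 0 < ε → ε < 1 → 0 < η → ∃ r₀ : ℕ, ∀ r : ℕ, r₀ ≤ r → ∃ N₀ : ℕ,
      ∀ N : ℕ, N₀ ≤ N → ∀ P : Finset ℕ, P.card = K → (∀ a ∈ P, a ≤ N ^ A) → Admissible P →
      ∀ (D : ℕ) (T : Finset ℤ), Range ε k N D T →
      ∀ (S : Set ℤ) (δ : ℝ), Invariant S → HasDensity s S δ →
      |({n : ℕ | n ∈ Tuples P r N ∧ s * (n : ℤ) ∈ S ∧
        (D : ℝ) ^ (1 - ε) ≤ (inside s S (Tuples P r N) T D n : ℝ)}.ncard : ℝ) -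
        δ * (Tuples P r N).ncard| ≤ η * (Tuples P r N).ncard) ∧
    (∀ (P : Finset ℕ) (k : ℕ) (ε : ℝ), Admissible P → 0 < ε → ε < 1 →
      (∀ η : ℝ, 0 < η → ∃ᶠ r : ℕ in atTop, ∃ᶠ N : ℕ in atTop, ∃ (D : ℕ) (T : Finset ℤ),
        Range ε k N D T ∧
        ({n : ℕ | n ∈ Tuples P r N ∧ s * (n : ℤ) ∈ WanderingIntegers ∧ (D : ℝ) ^ (1 - ε) ≤
          (inside s WanderingIntegers (Tuples P r N) T D n : ℝ)}.ncard : ℝ) ≤
          η * (Tuples P r N).ncard) →
      ∀ n : ℤ, 0 < s * n → ¬ IsWanderingDomain f₀ (FatouComponent f₀ n)) := by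
  have hdens : ∀ S : Set ℤ, Invariant S → ∃ δ : ℝ, 0 ≤ δ ∧ δ ≤ 1 ∧ HD s S δ ∧ HasDensity s S δ := by
    intro S hS
    obtain ⟨δ, h0, h1, h2⟩ := dens_side (d := 1) odd_one (by norm_num) hs (S := S) (inv_T hS)
    exact ⟨δ, h0, h1, h2, HD_ncard hs h2⟩
  have hall : ∀ (K A k : ℕ) (ε η : ℝ), 0 < ε → ε < 1 → 0 < η → ∃ r₀ : ℕ, ∀ r : ℕ, r₀ ≤ r → ∃ N₀ : ℕ,
      ∀ N : ℕ, N₀ ≤ N → ∀ P : Finset ℕ, P.card = K → (∀ a ∈ P, a ≤ N ^ A) → Admissible P →
      0 < (Tuples P r N).ncard ∧ ∀ (D : ℕ) (T : Finset ℤ), Range ε k N D T →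
      ({n : ℕ | n ∈ Tuples P r N ∧
        (merging s (Tuples P r N) T D n : ℝ) < (D : ℝ) ^ (1 - ε)}.ncard : ℝ) ≤
        η * (Tuples P r N).ncard ∧
      ∀ (S : Set ℤ) (δ : ℝ), Invariant S → HasDensity s S δ →
      |({n : ℕ | n ∈ Tuples P r N ∧ s * (n : ℤ) ∈ S ∧
        (D : ℝ) ^ (1 - ε) ≤ (inside s S (Tuples P r N) T D n : ℝ)}.ncard : ℝ) -
        δ * (Tuples P r N).ncard| ≤ η * (Tuples P r N).ncard := by
    intro K A k ε η hε hε1 hη
    rcases Nat.eq_zero_or_pos K with rfl | hK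
    · refine ⟨0, fun r _ => ⟨0, fun N _ P hP _ hPad => ?_⟩⟩
      exact absurd (Finset.card_eq_zero.1 hP) hPad.1.ne_empty
    obtain ⟨r₀, -, h⟩ := allT hs K A k hK ε η hε hε1 hη
    refine ⟨r₀, fun r hr => ?_⟩
    obtain ⟨N₀, hN₀⟩ := eventually_atTop.1 (h r hr)
    refine ⟨N₀, fun N hN P hP hPA hPad => ?_⟩
    obtain ⟨g1, g2⟩ := hN₀ N hN P hP hPA hPad.2
    rw [tuples_eq]
    refine ⟨g1, fun D T hR => ?_⟩
    obtain ⟨hT, hD1, H, hH, hTH, hD2⟩ := hR
    obtain ⟨g3, g4⟩ := g2 H D hH hD1 hD2 T hT hTH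
    simp only [merging_eq, inside_eq]
    refine ⟨g3, fun S δ hS hδ => ?_⟩
    obtain ⟨δ', h0, h1, h2, h3⟩ := hdens S hS
    rw [tendsto_nhds_unique hδ h3]
    exact g4 S (inv_T hS) δ' h2 h0 h1
  refine ⟨?_, ?_, ⟨fun S hS => ?_, wn_invariant, ?_⟩, ?_⟩
  · intro k ε η hε hε1 hη
    obtain ⟨N₀, hN₀⟩ := eventually_atTop.1 ((primePat hs k ε η hε hε1 hη).and (eventually_ge_atTop 3))
    refine ⟨N₀, fun N hN D T hR => ?_⟩
    obtain ⟨h1, h2⟩ := hN₀ N hN
    obtain ⟨hT, hD1, H, hH, hTH, hD2⟩ := hR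
    have h3 := h1 H D hH hD1 hD2 T hT hTH
    have hlog : 0 < Real.log N := Real.log_pos (by exact_mod_cast (by omega : 1 < N))
    rw [le_div_iff₀ hlog]
    simp only [merging_eq]
    exact h3
  · intro K A k ε η hε hε1 hη
    obtain ⟨r₀, h⟩ := hall K A k ε η hε hε1 hη
    refine ⟨r₀, fun r hr => ?_⟩
    obtain ⟨N₀, hN₀⟩ := h r hr
    exact ⟨N₀, fun N hN P hP hPA hPad => ⟨(hN₀ N hN P hP hPA hPad).1,
      fun D T hR => ((hN₀ N hN P hP hPA hPad).2 D T hR).1⟩⟩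
  · obtain ⟨δ, _, _, _, h⟩ := hdens S hS
    exact ⟨δ, h⟩
  · intro K A k ε η hε hε1 hη
    obtain ⟨r₀, h⟩ := hall K A k ε η hε hε1 hη
    refine ⟨r₀, fun r hr => ?_⟩
    obtain ⟨N₀, hN₀⟩ := h r hr
    exact ⟨N₀, fun N hN P hP hPA hPad D T hR => ((hN₀ N hN P hP hPA hPad).2 D T hR).2⟩
  · intro P k ε hPad hε hε1 hcrit n hn hW
    obtain ⟨w, β, h1, h2, -⟩ := Pool.Agent.R630.WD.dens hs
    have hw1 : HasDensity s WanderingIntegers w := h1
    have hw : w ≠ 0 := fun h0 => h2.1 h0 n hn hW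
    have hw0 : 0 < w := by
      obtain ⟨δ', h0, _, _, h3⟩ := hdens _ wn_invariant
      have : w = δ' := tendsto_nhds_unique hw1 h3
      rw [this] at hw ⊢
      exact lt_of_le_of_ne h0 hw.symm
    obtain ⟨r₀, h⟩ := hall P.card (P.sup id) k ε (w / 4) hε hε1 (by positivity)
    obtain ⟨r, hr, hfr⟩ := (Filter.frequently_atTop.1 (hcrit (w / 4) (by positivity))) r₀
    obtain ⟨N₀, hN₀⟩ := h r hr
    obtain ⟨N, hN, D, T, hR, hle⟩ := (Filter.frequently_atTop.1 hfr) (max N₀ 2)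
    have hPA : ∀ a ∈ P, a ≤ N ^ (P.sup id) := by
      intro a ha
      have h3 : a ≤ P.sup id := Finset.le_sup (f := id) ha
      have h4 : P.sup id < N ^ (P.sup id) :=
        Nat.lt_pow_self (by have := (le_max_right N₀ 2).trans hN; omega)
      omega
    obtain ⟨hpos, hall2⟩ := hN₀ N ((le_max_left _ _).trans hN) P rfl hPA hPad
    have h5 := (abs_le.1 ((hall2 D T hR).2 _ w wn_invariant hw1)).1
    have h6 : (0 : ℝ) < (Tuples P r N).ncard := by exact_mod_cast hpos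
    nlinarith

end Pool.Agent.Results.MP_071ec9_an.MergingPrimePatterns
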